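import Pool.Agent.Lib.MP_53f9be_gt.CcMain

/-!
There is a model of ZFC containing a countably compact, noncompact, Hausdorff complex manifold of
complex dimension two.
-/

namespace Pool.Agent.Results.MP_53f9be_gt.ConsistentExample

open Pool.Agent.Lib.MP_898cae_lc Pool.Agent.Lib.MP_53f9be_gt

theorem result : ∃ (M : Type 1) (E : M → M → Prop), ZFC E ∧ Cc.Stoll E := Frc.main

end Pool.Agent.Results.MP_53f9be_gt.ConsistentExample
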