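import Pool.Agent.FS.LiouvilleLevels.Collar

/-!
A connected omega-bounded complex manifold is exhausted by relatively compact domains such that
plurisubharmonic functions on their collars are locally constant near the boundary.
-/

open Filter Topology
open Pool.Agent.FS.LiouvilleLevels

namespace Pool.Agent.Results.MP_53f9be_gt.FlatCollars

theorem result (n : ℕ) (M : Type) [TopologicalSpace M] [T2Space M] [ConnectedSpace M]
    [ChartedSpace (EuclideanSpace ℂ (Fin n)) M]
    [IsManifold (modelWithCornersSelf ℂ (EuclideanSpace ℂ (Fin n))) ⊤ M]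
    (hω : ∀ A : Set M, A.Countable → IsCompact (closure A)) (K₀ : Set M) (hK₀ : IsCompact K₀) :
    ∃ W : Set M, IsOpen W ∧ IsConnected W ∧ IsCompact (closure W) ∧ K₀ ⊆ W ∧
      ∀ K : Set M, IsCompact K → K ⊆ W → ∃ K' : Set M, IsCompact K' ∧ K ⊆ K' ∧ K' ⊆ W ∧
        ∀ u : M → ℝ, Psh (EuclideanSpace ℂ (Fin n)) u (W \ K) →
          ∀ x ∈ W \ K', ∀ᶠ y in 𝓝 x, u y = u x := by
  obtain ⟨W, h1, h2, -, h4, h5, -, h7⟩ := main (EuclideanSpace ℂ (Fin n)) hω hK₀
  exact ⟨W, h1, h2, h5, h4, h7⟩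

end Pool.Agent.Results.MP_53f9be_gt.FlatCollars
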