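import Pool.Agent.Lib.MP_53f9be_gt.Colimit
import Pool.Agent.Lib.MP_53f9be_gt.Miss

/-!
A connected Hausdorff complex surface that is neither separable nor developable and contains a
closed, noncompact, omega-bounded, totally real surface.
-/

open Filter Topology Set Metric
open Pool.Agent.Lib.MP_53f9be_gt

namespace Pool.Agent.Results.MP_53f9be_gt.LongPlane

theorem result :
    ∃ (M : Type) (_ : TopologicalSpace M) (_ : T2Space M)
      (_ : ChartedSpace (EuclideanSpace ℂ (Fin 2)) M),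
      IsManifold (modelWithCornersSelf ℂ (EuclideanSpace ℂ (Fin 2))) ⊤ M ∧ ConnectedSpace M ∧
      (∀ x : M, (chartAt (EuclideanSpace ℂ (Fin 2)) x).target = Set.univ) ∧
      (∃ Y : Set M, IsClosed Y ∧ ¬ IsCompact Y ∧
        (∀ A : Set M, A ⊆ Y → A.Countable → IsCompact (closure A)) ∧
        ∀ x : M, ∀ y ∈ (chartAt (EuclideanSpace ℂ (Fin 2)) x).source,
          y ∈ Y ↔ ∀ i : Fin 2, (chartAt (EuclideanSpace ℂ (Fin 2)) x y i).im = 0) ∧
      ¬ TopologicalSpace.SeparableSpace M ∧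
      ¬ ∃ G : ℕ → Set (Set M), (∀ n, ∀ U ∈ G n, IsOpen U) ∧ (∀ n x, ∃ U ∈ G n, x ∈ U) ∧
        ∀ x : M, ∀ V ∈ nhds x, ∃ n, ∀ U ∈ G n, x ∈ U → U ⊆ V := by
  obtain ⟨I, _, _, -, hI, hb⟩ := exists_omega_one
  have : Nonempty I := ⟨(hb ∅ countable_empty).choose⟩
  obtain ⟨F₁, hF₁, h₁⟩ := exists_good_bounded
  obtain ⟨F₂, hF₂, h₂⟩ := exists_good_miss
  obtain ⟨C, hC⟩ := exists_bound hF₂.continuous 6
  have hcl : IsClosed realPts :=
    (isClosed_eq (f := fun p : ℂ × ℂ => p.1.im) (by fun_prop) continuous_const).inter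
      (isClosed_eq (f := fun p : ℂ × ℂ => p.2.im) (by fun_prop) continuous_const)
  obtain ⟨F, hF, hid, hcomp, hQ⟩ := exists_chain (Y := realPts) hI
    (fun _ _ f => (∀ z ∈ realPts, ‖f z‖ ≤ C) ∧ ∀ z, f z ∉ {w : ℂ × ℂ | 1 < ‖w.2‖ ∧ ‖w‖ < 2})
    (fun β G hG => ⟨F₂ ∘ F₁, hF₂.comp hF₁, fun α hα =>
      ⟨fun z hz => hC _ (h₁ _ (((hG α hα).mem_iff hcl z).2 hz)), fun z => h₂ _⟩⟩)
  obtain ⟨M, t, h2, cs, ι, hM, hconn, hι, hιF, hsurj, hchart⟩ := exists_manifold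
    ((ContinuousLinearEquiv.finTwoArrow ℂ ℂ).symm.trans (EuclideanSpace.equiv (Fin 2) ℂ).symm)
    F hF hid hcomp
  let Y : Set M := ⋃ a, ι a '' realPts
  have hY : ∀ a z, ι a z ∈ Y ↔ z ∈ realPts := by
    intro a z
    refine ⟨fun h => ?_, fun h => mem_iUnion.2 ⟨a, z, h, rfl⟩⟩
    obtain ⟨b, w, hw, e⟩ := mem_iUnion.1 h
    rw [← hιF a _ (le_max_left a b), ← hιF b _ (le_max_right a b)] at e
    rw [← (hF a _ (le_max_left a b)).mem_iff hcl, ← (hι _).injective e,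
      (hF b _ (le_max_right a b)).mem_iff hcl]
    exact hw
  have hcount : ∀ A : Set M, A.Countable → ∃ β, A ⊆ range (ι β) := by
    intro A hA
    choose idx pt h using hsurj
    obtain ⟨β, hβ⟩ := hb _ (hA.image idx)
    exact ⟨β, fun x hx => ⟨_, (hιF _ _ (hβ _ (mem_image_of_mem _ hx)).le _).trans (h x)⟩⟩
  have hnext : ∀ β : I, ∃ γ, β < γ := fun β => (hb {β} (countable_singleton β)).imp fun γ h =>
    h β rfl
  have hYc : IsClosed Y := by
    rw [← isOpen_compl_iff, isOpen_iff_mem_nhds]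
    intro x hx
    obtain ⟨a, z, rfl⟩ := hsurj x
    refine mem_of_superset (((hι a).isOpenMap _ hcl.isOpen_compl).mem_nhds
      ⟨z, fun h => hx ((hY a z).2 h), rfl⟩) ?_
    rintro _ ⟨w, hw, rfl⟩ h
    exact hw ((hY a w).1 h)
  have hω : ∀ A : Set M, A ⊆ Y → A.Countable → IsCompact (closure A) := by
    intro A hAY hA
    obtain ⟨β, hβ⟩ := hcount A hA
    obtain ⟨γ, hγ⟩ := hnext β
    have hK := (isCompact_closedBall (0 : ℂ × ℂ) C).image (hι γ).continuous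
    refine hK.of_isClosed_subset isClosed_closure (closure_minimal (fun x hx => ?_) hK.isClosed)
    obtain ⟨z, rfl⟩ := hβ hx
    exact ⟨_, by simpa using (hQ β γ hγ).1 z ((hY β z).1 (hAY hx)), hιF β γ hγ.le z⟩
  have hnc : ¬ IsCompact Y := by
    intro h
    obtain ⟨β, hβ⟩ := h.elim_directed_cover (fun a => range (ι a)) (fun a => (hι a).isOpen_range)
      (fun x _ => by obtain ⟨a, z, rfl⟩ := hsurj x; exact mem_iUnion.2 ⟨a, z, rfl⟩)
      (fun a b => ⟨max a b, range_subset_iff.2 fun z => ⟨_, hιF _ _ (le_max_left _ _) z⟩,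
        range_subset_iff.2 fun z => ⟨_, hιF _ _ (le_max_right _ _) z⟩⟩)
    obtain ⟨R, hR⟩ := ((hι β).isInducing.isCompact_preimage' h hβ).isBounded.exists_norm_le
    have := hR (((|R| + 1 : ℝ) : ℂ), 0) ((hY β _).2 ⟨by simp, by simp⟩)
    have h3 := (norm_fst_le _).trans this
    simp only [Complex.norm_real, Real.norm_eq_abs] at h3
    linarith [le_abs_self (|R| + 1), le_abs_self R]
  refine ⟨M, t, h2, cs, hM, hconn, fun x => (hchart x).1, ⟨Y, hYc, hnc, hω, fun x y hy => ?_⟩,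
    fun ⟨A, hA, hd⟩ => ?_,
    fun ⟨G, h1, h2, h3⟩ => hnc (isCompact_of_development hYc hω G h1 h2 h3)⟩
  · obtain ⟨a, ha⟩ := (hchart x).2
    conv_lhs => rw [← ha y hy, hY]
    rw [Fin.forall_fin_two]
    rfl
  · obtain ⟨β, hβ⟩ := hcount A hA
    obtain ⟨γ, hγ⟩ := hnext β
    have ho : IsOpen {w : ℂ × ℂ | 1 < ‖w.2‖ ∧ ‖w‖ < 2} :=
      (isOpen_lt continuous_const continuous_snd.norm).and
        (isOpen_lt continuous_norm continuous_const)
    obtain ⟨x, hxA, w, hw, rfl⟩ := hd.exists_mem_open ((hι γ).isOpenMap _ ho)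
      ⟨_, (0, 3 / 2), by norm_num, rfl⟩
    obtain ⟨z, hz⟩ := hβ hxA
    rw [← hιF β γ hγ.le] at hz
    exact (hQ β γ hγ).2 z ((hι γ).injective hz ▸ hw)

end Pool.Agent.Results.MP_53f9be_gt.LongPlane
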