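import Pool.Agent.FS.LiouvilleLevels.Collar

/-!
A connected countably compact complex manifold is exhausted by sigma-compact domains that carry
no nonconstant plurisubharmonic function bounded above.
-/

open Filter Topology
open Pool.Agent.FS.LiouvilleLevels

namespace Pool.Agent.Results.MP_53f9be_gt.ParabolicLevels

theorem result (n : ℕ) (M : Type) [TopologicalSpace M] [T2Space M] [ConnectedSpace M]
    [ChartedSpace (EuclideanSpace ℂ (Fin n)) M]
    [IsManifold (modelWithCornersSelf ℂ (EuclideanSpace ℂ (Fin n))) ⊤ M]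
    (hcc : ∀ u : ℕ → M, ∃ x : M, MapClusterPt x atTop u)
    (K₀ : Set M) (hK₀ : IsSigmaCompact K₀) :
    ∃ W : Set M, IsOpen W ∧ IsConnected W ∧ IsSigmaCompact W ∧ K₀ ⊆ W ∧
      ∀ u : M → ℝ, Psh (EuclideanSpace ℂ (Fin n)) u W → BddAbove (u '' W) →
        ∀ x ∈ W, ∀ y ∈ W, u x = u y :=
  main_cc (EuclideanSpace ℂ (Fin n)) hcc hK₀

end Pool.Agent.Results.MP_53f9be_gt.ParabolicLevels
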